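import Pool.Agent.Lib_helper27.Pack.Final

/-!
# `m(n) ~ (4/3) n^{3/2} / ln n`
-/

namespace Pool.Agent.Results.MP_f78dbe_co.PackAsymptotic

open Filter Topology Pool.Agent.LibH27.Pack

/-- Let `m(n) = packNum n` be the least `m` such that the sets `A_d = {d, 2d, …, ⌊n/d⌋ d}`,
`1 ≤ d ≤ n`, pack into `[m]`. Then `m(n) ln n / n^{3/2} → 4/3`. -/
theorem result :
    Tendsto (fun n : ℕ => (packNum n : ℝ) * Real.log n / (n : ℝ) ^ (3 / 2 : ℝ)) atTop
      (𝓝 (4 / 3)) :=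
  packNum_tendsto

end Pool.Agent.Results.MP_f78dbe_co.PackAsymptotic
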